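import Pool.Agent.TH953.RC.Count

set_option autoImplicit false

/-! Asymptotics: almost all members of a dense hereditary class are determined by three cards. -/

namespace Pool.Agent.TH953.RC

open Finset Filter Topology Pool.Agent.H234RC

theorem ev_nlogn (δ : ℝ) (hδ : 0 < δ) :
    ∀ᶠ n : ℕ in atTop, 3 * (n : ℝ) * Real.log n + 1 ≤ δ * (n : ℝ) ^ 2 := by
  have h1 := (Real.isLittleO_log_id_atTop.comp_tendsto tendsto_natCast_atTop_atTop).bound
    (show (0 : ℝ) < δ / 6 by positivity)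
  filter_upwards [h1, eventually_ge_atTop 1, eventually_ge_atTop (Nat.ceil (2 / δ))] with n hn h1 h2
  simp only [Function.comp_apply, Real.norm_eq_abs, id_eq] at hn
  have hn1 : (1 : ℝ) ≤ n := by exact_mod_cast h1
  have hn2 : 2 / δ ≤ n := Nat.ceil_le.1 h2
  have hn3 : 2 ≤ δ * n := by
    rw [div_le_iff₀ hδ] at hn2
    linarith
  have e1 : |(n : ℝ)| = n := abs_of_nonneg (by linarith)
  rw [e1] at hn
  have e2 : Real.log n ≤ δ / 6 * n := (le_abs_self _).trans hn
  have e3 : 3 * (n : ℝ) * Real.log n ≤ 3 * n * (δ / 6 * n) :=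
    mul_le_mul_of_nonneg_left e2 (by linarith)
  nlinarith

open Classical in
theorem small_sets (n d : ℕ) (lam : ℝ) (h0 : 0 < lam) (h1 : lam ≤ 1) :
    ((univ.filter (fun D : Finset (Fin n) => D.card ≤ d)).card : ℝ) ≤
      Real.exp (lam * n + d * (-Real.log lam)) := by
  have hs : ∑ t ∈ (univ : Finset (Fin n)).powerset, lam ^ t.card * (1 : ℝ) ^ ((univ : Finset (Fin n)).card - t.card) =
      (lam + 1) ^ (univ : Finset (Fin n)).card := Finset.sum_pow_mul_eq_add_pow lam 1 univ
  rw [card_univ, Fintype.card_fin] at hs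
  have h2 : ((univ.filter (fun D : Finset (Fin n) => D.card ≤ d)).card : ℝ) * lam ^ d ≤
      (lam + 1) ^ n := by
    calc ((univ.filter (fun D : Finset (Fin n) => D.card ≤ d)).card : ℝ) * lam ^ d
        = ∑ D ∈ univ.filter (fun D : Finset (Fin n) => D.card ≤ d), lam ^ d := by
          rw [sum_const, nsmul_eq_mul]
      _ ≤ ∑ D ∈ univ.filter (fun D : Finset (Fin n) => D.card ≤ d),
          lam ^ D.card * (1 : ℝ) ^ (n - D.card) := by
          apply sum_le_sum
          intro D hD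
          rw [one_pow, mul_one]
          exact pow_le_pow_of_le_one h0.le h1 (mem_filter.1 hD).2
      _ ≤ ∑ D ∈ (univ : Finset (Fin n)).powerset, lam ^ D.card * (1 : ℝ) ^ (n - D.card) := by
          apply sum_le_sum_of_subset_of_nonneg
          · intro D _
            rw [mem_powerset]; exact subset_univ _
          · intro D _ _
            positivity
      _ = (lam + 1) ^ n := hs
  have h3 : (lam + 1) ^ n ≤ Real.exp (lam * n) := by
    have : lam + 1 ≤ Real.exp lam := Real.add_one_le_exp lam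
    calc (lam + 1) ^ n ≤ (Real.exp lam) ^ n := pow_le_pow_left₀ (by linarith) this n
      _ = Real.exp (lam * n) := by rw [← Real.exp_nat_mul]; ring_nf
  have h4 : lam ^ d = Real.exp (-(d * (-Real.log lam))) := by
    rw [show -((d : ℝ) * (-Real.log lam)) = d * Real.log lam by ring, Real.exp_nat_mul,
      Real.exp_log h0]
  have h5 : ((univ.filter (fun D : Finset (Fin n) => D.card ≤ d)).card : ℝ) * lam ^ d ≤
      Real.exp (lam * n) := h2.trans h3
  rw [Real.exp_add]
  calc ((univ.filter (fun D : Finset (Fin n) => D.card ≤ d)).card : ℝ)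
      = ((univ.filter (fun D : Finset (Fin n) => D.card ≤ d)).card : ℝ) * lam ^ d *
          Real.exp (d * (-Real.log lam)) := by
        rw [h4, mul_assoc, ← Real.exp_add, neg_add_cancel, Real.exp_zero, mul_one]
    _ ≤ Real.exp (lam * n) * Real.exp (d * (-Real.log lam)) :=
        mul_le_mul_of_nonneg_right h5 (Real.exp_pos _).le

theorem cast_pow_exp (n m : ℕ) (hn : 0 < n) :
    ((n : ℝ)) ^ m = Real.exp (m * Real.log n) := by
  rw [Real.exp_nat_mul, Real.exp_log (by exact_mod_cast hn)]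

open Classical in
/-- the numerical heart -/
theorem bad_bound (P : ∀ n : ℕ, Set (SimpleGraph (Fin n))) (hP : Hered P)
    (hne : ∀ n, (P n).Nonempty) (h1 κ lam : ℝ) (hh1 : 0 < h1) (hh1' : h1 ≤ 1)
    (hlam : lam = h1 / 16) (hκ0 : 0 < κ)
    (hκ1 : κ ≤ h1 / 64) (hκ2 : 4 * κ * (-Real.log lam) ≤ h1 / 16)
    (h ε : ℝ) (hh : h1 ≤ h) (hε : 0 < ε) (n k : ℕ) (hk1 : 1 ≤ k) (hk : 4 * k + 2 ≤ n)
    (hkκ : (k : ℝ) ≤ κ * n) (hup : rs P (n - k) ≤ h + ε) (hlow : h ≤ rs P n) :
    ((univ.filter (fun G : SimpleGraph (Fin n) => G ∈ P n ∧ Dich G k)).card : ℝ) ≤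
      2 * Real.exp (3 * n * Real.log n - h1 * k * n + ε * n ^ 2) * ((P n).ncard : ℝ) := by
  have hn0 : 0 < n := by omega
  have hnR : (1 : ℝ) ≤ n := by exact_mod_cast hn0
  have hn6 : (6 : ℝ) ≤ n := by exact_mod_cast (show 6 ≤ n by omega)
  have hkR : (1 : ℝ) ≤ k := by exact_mod_cast hk1
  have hk4 : 4 * (k : ℝ) + 2 ≤ n := by exact_mod_cast hk
  have hlog0 : 0 ≤ Real.log n := Real.log_nonneg hnR
  have hlam0 : 0 < lam := by rw [hlam]; positivity
  have hlam1 : lam ≤ 1 := by rw [hlam]; linarith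
  have hpos : ∀ m, (0 : ℝ) < ((P m).ncard : ℝ) := by
    intro m
    have : 0 < (P m).ncard := (Set.ncard_pos (Set.toFinite _)).2 (hne m)
    exact_mod_cast this
  have hl : ∀ m, ((P m).ncard : ℝ) = Real.exp (ls P m) := fun m => (Real.exp_log (hpos m)).symm
  have hb := count_bad (n := n) (k := k) P hP
  have hbR : ((univ.filter (fun G : SimpleGraph (Fin n) => G ∈ P n ∧ Dich G k)).card : ℝ) ≤
      ((n.factorial : ℝ) * n ^ 2) * (((P (n - k)).ncard : ℝ) * 2 ^ (k * (k + 2))) +
      ((n : ℝ) ^ k * ((n : ℝ) ^ k * ((univ.filter (fun D : Finset (Fin n) => D.card ≤ 3 * k + 1)).card : ℝ) ^ k)) *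
        ((P (n - k)).ncard : ℝ) := by exact_mod_cast hb
  -- speeds
  have hnk : ((n - k : ℕ) : ℝ) = (n : ℝ) - k := by rw [Nat.cast_sub (by omega)]
  have hlp : ls P (n - k) ≤ (h + ε) * (((n : ℝ) - k) * ((n : ℝ) - k - 1)) := by
    unfold rs at hup
    rw [hnk] at hup
    rwa [div_le_iff₀ (by nlinarith)] at hup
  have hlN : h * ((n : ℝ) * ((n : ℝ) - 1)) ≤ ls P n := by
    unfold rs at hlow
    rwa [le_div_iff₀ (by nlinarith)] at hlow
  have hdiff : ls P (n - k) ≤ ls P n - (3 / 2) * h1 * k * n + ε * n ^ 2 := by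
    have e1 : ((n : ℝ) - k) * ((n : ℝ) - k - 1) ≤ n ^ 2 := by nlinarith
    have e1' : 0 ≤ ((n : ℝ) - k) * ((n : ℝ) - k - 1) := by nlinarith
    have e2 : (n : ℝ) * (n - 1) - ((n : ℝ) - k) * ((n : ℝ) - k - 1) = k * (2 * n - k - 1) := by ring
    have e3 : (3 / 2) * (n : ℝ) ≤ 2 * n - k - 1 := by linarith
    have e4 : h1 * (k * ((3 / 2) * n)) ≤ h * (k * (2 * n - k - 1)) := by
      apply mul_le_mul hh _ (by positivity) (by linarith)
      exact mul_le_mul_of_nonneg_left e3 (by linarith)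
    have e5 : ε * (((n : ℝ) - k) * ((n : ℝ) - k - 1)) ≤ ε * n ^ 2 :=
      mul_le_mul_of_nonneg_left e1 hε.le
    have e6 : (h + ε) * (((n : ℝ) - k) * ((n : ℝ) - k - 1)) =
        h * ((n : ℝ) * (n - 1)) - h * (k * (2 * n - k - 1)) +
          ε * (((n : ℝ) - k) * ((n : ℝ) - k - 1)) := by rw [← e2]; ring
    have e7 : h1 * (k * ((3 / 2) * n)) = (3 / 2) * h1 * k * n := by ring
    linarith
  have hkn : 0 ≤ (k : ℝ) * n := by positivity
  -- first term
  have hA : ((n.factorial : ℝ) * n ^ 2) * (((P (n - k)).ncard : ℝ) * 2 ^ (k * (k + 2))) ≤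
      Real.exp (ls P (n - k) + h1 / 8 * (k * n) + 3 * n * Real.log n) := by
    have a1 : (n.factorial : ℝ) ≤ Real.exp (n * Real.log n) := by
      rw [← cast_pow_exp n n hn0]
      exact_mod_cast Nat.factorial_le_pow n
    have a2 : ((n : ℝ)) ^ 2 = Real.exp ((2 : ℕ) * Real.log n) := cast_pow_exp n 2 hn0
    have a3 : (2 : ℝ) ^ (k * (k + 2)) ≤ Real.exp (h1 / 8 * (k * n)) := by
      have : (2 : ℝ) ^ (k * (k + 2)) = Real.exp (((k * (k + 2) : ℕ) : ℝ) * Real.log 2) := by
        have := cast_pow_exp 2 (k * (k + 2)) (by norm_num)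
        exact_mod_cast this
      rw [this]
      apply Real.exp_le_exp.2
      have l2 : Real.log 2 ≤ 1 := by
        have := Real.log_two_lt_d9
        linarith
      have l0 : 0 ≤ Real.log 2 := Real.log_nonneg (by norm_num)
      push_cast
      have b1 : (k : ℝ) * (k + 2) * Real.log 2 ≤ k * (k + 2) * 1 :=
        mul_le_mul_of_nonneg_left l2 (by positivity)
      have b2 : (k : ℝ) + 2 ≤ 3 * (κ * n) := by linarith
      have b3 : (k : ℝ) * (k + 2) ≤ k * (3 * (κ * n)) := mul_le_mul_of_nonneg_left b2 (by linarith)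
      have b4 : (k : ℝ) * (3 * (κ * n)) = 3 * κ * (k * n) := by ring
      have b5 : 3 * κ * (k * n) ≤ h1 / 8 * (k * n) :=
        mul_le_mul_of_nonneg_right (by linarith) hkn
      linarith
    calc ((n.factorial : ℝ) * n ^ 2) * (((P (n - k)).ncard : ℝ) * 2 ^ (k * (k + 2)))
        ≤ (Real.exp (n * Real.log n) * Real.exp ((2 : ℕ) * Real.log n)) *
          (Real.exp (ls P (n - k)) * Real.exp (h1 / 8 * (k * n))) := by
          rw [← a2, hl (n - k)]
          gcongr
      _ = Real.exp ((n * Real.log n + (2 : ℕ) * Real.log n) +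
          (ls P (n - k) + h1 / 8 * (k * n))) := by
          rw [Real.exp_add, Real.exp_add, Real.exp_add]
      _ ≤ _ := by
          apply Real.exp_le_exp.2
          push_cast
          have b6 : 2 * Real.log n ≤ 2 * n * Real.log n :=
            mul_le_mul_of_nonneg_right (by linarith) hlog0
          linarith
  -- second term
  have hB : ((n : ℝ) ^ k * ((n : ℝ) ^ k * ((univ.filter (fun D : Finset (Fin n) => D.card ≤ 3 * k + 1)).card : ℝ) ^ k)) *
        ((P (n - k)).ncard : ℝ) ≤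
      Real.exp (ls P (n - k) + h1 / 8 * (k * n) + 3 * n * Real.log n) := by
    have a1 := small_sets n (3 * k + 1) lam hlam0 hlam1
    have a2 : lam * n + ((3 * k + 1 : ℕ) : ℝ) * (-Real.log lam) ≤ h1 / 8 * n := by
      have hl0 : 0 ≤ -Real.log lam := by
        have := Real.log_nonpos hlam0.le hlam1
        linarith
      push_cast
      have b1 : (3 * (k : ℝ) + 1) ≤ 4 * (κ * n) := by linarith
      have b2 : (3 * (k : ℝ) + 1) * (-Real.log lam) ≤ 4 * (κ * n) * (-Real.log lam) :=
        mul_le_mul_of_nonneg_right b1 hl0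
      have b3 : 4 * (κ * n) * (-Real.log lam) = (4 * κ * (-Real.log lam)) * n := by ring
      have b4 : (4 * κ * (-Real.log lam)) * n ≤ h1 / 16 * n :=
        mul_le_mul_of_nonneg_right hκ2 (by linarith)
      rw [hlam] at b2 b3 b4 ⊢
      linarith
    have a3 : ((univ.filter (fun D : Finset (Fin n) => D.card ≤ 3 * k + 1)).card : ℝ) ^ k ≤
        Real.exp (h1 / 8 * (k * n)) := by
      calc ((univ.filter (fun D : Finset (Fin n) => D.card ≤ 3 * k + 1)).card : ℝ) ^ k
          ≤ (Real.exp (h1 / 8 * n)) ^ k := by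
            apply pow_le_pow_left₀ (Nat.cast_nonneg _)
            exact a1.trans (Real.exp_le_exp.2 a2)
        _ = Real.exp (h1 / 8 * (k * n)) := by
            rw [← Real.exp_nat_mul]; ring_nf
    have a4 : (n : ℝ) ^ k = Real.exp (k * Real.log n) := cast_pow_exp n k hn0
    calc ((n : ℝ) ^ k * ((n : ℝ) ^ k * ((univ.filter (fun D : Finset (Fin n) => D.card ≤ 3 * k + 1)).card : ℝ) ^ k)) *
        ((P (n - k)).ncard : ℝ)
        ≤ (Real.exp (k * Real.log n) * (Real.exp (k * Real.log n) *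
            Real.exp (h1 / 8 * (k * n)))) * Real.exp (ls P (n - k)) := by
          rw [← a4, hl (n - k)]
          gcongr
      _ = Real.exp ((k * Real.log n + (k * Real.log n + h1 / 8 * (k * n))) + ls P (n - k)) := by
          rw [Real.exp_add, Real.exp_add, Real.exp_add]
      _ ≤ _ := by
          apply Real.exp_le_exp.2
          have : 2 * (k : ℝ) * Real.log n ≤ 3 * n * Real.log n :=
            mul_le_mul_of_nonneg_right (by linarith) hlog0
          linarith
  have hfin : Real.exp (ls P (n - k) + h1 / 8 * (k * n) + 3 * n * Real.log n) ≤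
      Real.exp (3 * n * Real.log n - h1 * k * n + ε * n ^ 2) * ((P n).ncard : ℝ) := by
    rw [hl n, ← Real.exp_add]
    apply Real.exp_le_exp.2
    have q1 : 0 ≤ h1 * (k * n) := by positivity
    have q2 : h1 / 8 * (k * n) = (h1 * (k * n)) / 8 := by ring
    have q3 : (3 / 2) * h1 * k * n = (3 / 2) * (h1 * (k * n)) := by ring
    have q4 : h1 * k * n = h1 * (k * n) := by ring
    linarith
  calc _ ≤ _ := hbR
    _ ≤ Real.exp (ls P (n - k) + h1 / 8 * (k * n) + 3 * n * Real.log n) +
        Real.exp (ls P (n - k) + h1 / 8 * (k * n) + 3 * n * Real.log n) := add_le_add hA hB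
    _ ≤ _ := by linarith

end Pool.Agent.TH953.RC
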