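import Pool.Agent.H234RC.W12a

set_option autoImplicit false

/-! Graphs that are not determined by three cards: either a near-automorphism with large support,
or many vertices with near twins. -/

namespace Pool.Agent.TH953.RC

open Finset Pool.Agent.H234RC

section

variable {V : Type} [Fintype V] [DecidableEq V]

open Classical in
theorem label_rank (G : SimpleGraph V) (R M : Finset V) (q : V → V × V)
    (hq : ∀ v ∈ R, (q v).1 ∈ M ∧ (q v).2 ∈ M ∧
      ∀ z ∈ R, ((G.Adj z (q v).1 ↔ G.Adj z (q v).2) ↔ z ≠ v)) : R.card ≤ M.card := by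
  let r : V → (R → ℚ) := fun m z => if G.Adj z m then 1 else 0
  let S : Finset (R → ℚ) := M.image r
  have hspan : Submodule.span ℚ (S : Set (R → ℚ)) = ⊤ := by
    rw [eq_top_iff, ← (Pi.basisFun ℚ R).span_eq, Submodule.span_le]
    rintro _ ⟨v, rfl⟩
    rw [Pi.basisFun_apply]
    obtain ⟨h1, h2, h3⟩ := hq v v.2
    have m1 : r (q v).1 ∈ Submodule.span ℚ (S : Set (R → ℚ)) :=
      Submodule.subset_span (mem_coe.2 (mem_image_of_mem r h1))
    have m2 : r (q v).2 ∈ Submodule.span ℚ (S : Set (R → ℚ)) :=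
      Submodule.subset_span (mem_coe.2 (mem_image_of_mem r h2))
    have hvv := h3 v v.2
    by_cases hv : G.Adj v (q v).1
    · have hv2 : ¬ G.Adj v (q v).2 := by tauto
      have e : (Pi.single v 1 : R → ℚ) = r (q v).1 - r (q v).2 := by
        ext z
        by_cases hz : z = v
        · subst hz
          simp [r, hv, hv2]
        · have hz' : (z : V) ≠ v := fun e => hz (Subtype.ext e)
          have := (h3 z z.2).2 hz'
          simp [r, hz, this]
      rw [e]
      exact Submodule.sub_mem _ m1 m2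
    · have hv2 : G.Adj v (q v).2 := by tauto
      have e : (Pi.single v 1 : R → ℚ) = r (q v).2 - r (q v).1 := by
        ext z
        by_cases hz : z = v
        · subst hz
          simp [r, hv, hv2]
        · have hz' : (z : V) ≠ v := fun e => hz (Subtype.ext e)
          have := (h3 z z.2).2 hz'
          simp [r, hz, this]
      rw [e]
      exact Submodule.sub_mem _ m2 m1
  have h1 : (S : Set (R → ℚ)).finrank ℚ ≤ S.card := finrank_span_finset_le_card S
  have h2 : (S : Set (R → ℚ)).finrank ℚ = R.card := by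
    unfold Set.finrank
    rw [hspan, finrank_top, Module.finrank_fintype_fun_eq_card, Fintype.card_coe]
  calc R.card = (S : Set (R → ℚ)).finrank ℚ := h2.symm
    _ ≤ S.card := h1
    _ ≤ M.card := card_image_le

open Classical in
/-- the rows of `x` and `y` differ in at most `d` places -/
def NT (G : SimpleGraph V) (d : ℕ) (x y : V) : Prop :=
  x ≠ y ∧ (univ.filter (fun z => ¬ (G.Adj x z ↔ G.Adj y z))).card ≤ d

omit [DecidableEq V] in
theorem NT.symm {G : SimpleGraph V} {d : ℕ} {x y : V} (h : NT G d x y) : NT G d y x := by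
  classical
  refine ⟨h.1.symm, ?_⟩
  refine le_trans (le_of_eq ?_) h.2
  congr 1
  ext z
  simp only [mem_filter, mem_univ, true_and]
  tauto

theorem moved_NT {G : SimpleGraph V} {φ : NAut V} (h : IsNA G φ) {x : V} (h1 : x ≠ φ.2.1)
    (h2 : x ≠ φ.2.2) (h3 : φ.1 x ≠ x) (d : ℕ) (hd : (mv φ).card + 2 ≤ d) : NT G d x (φ.1 x) := by
  classical
  refine ⟨fun e => h3 e.symm, ?_⟩
  have hsub : (univ.filter (fun z => ¬ (G.Adj x z ↔ G.Adj (φ.1 x) z))) ⊆ mv φ ∪ {φ.2.1, φ.2.2} := by
    intro z hz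
    have hz' := (mem_filter.1 hz).2
    rw [mem_union, mem_insert, mem_singleton]
    by_contra hcon
    push Not at hcon
    obtain ⟨c1, c2, c3⟩ := hcon
    have hfix : φ.1 z = z := by
      by_contra hmz
      exact c1 (mem_filter.2 ⟨mem_univ _, c2, c3, hmz⟩)
    have := h x z h1 h2 c2 c3
    rw [hfix] at this
    exact hz' this.symm
  have a1 := card_le_card hsub
  have a2 := card_union_le (mv φ) {φ.2.1, φ.2.2}
  have a3 : ({φ.2.1, φ.2.2} : Finset V).card ≤ 2 := card_le_two
  have a4 : (mv φ ∪ {φ.2.1, φ.2.2}).card ≤ d := by omega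
  exact a1.trans a4

theorem exists_X (G : SimpleGraph V) (d : ℕ) (T : Finset V) (hT : ∀ x ∈ T, ∃ y, NT G d x y) :
    ∃ X : Finset V, T.card ≤ 2 * X.card ∧ ∀ x ∈ X, ∃ y, y ∉ X ∧ NT G d x y := by
  classical
  let Ind : Finset V → Prop := fun D => ∀ x ∈ D, ∀ y ∈ D, ¬ NT G d x y
  have h0 : (∅ : Finset V) ∈ T.powerset.filter Ind :=
    mem_filter.2 ⟨empty_mem_powerset _, by intro x hx; simp at hx⟩
  obtain ⟨D, hD, hmax⟩ := exists_max_image (T.powerset.filter Ind) card ⟨_, h0⟩
  obtain ⟨hDT, hDI⟩ := mem_filter.1 hD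
  rw [mem_powerset] at hDT
  have hout : ∀ x ∈ T \ D, ∃ y ∈ D, NT G d x y := by
    intro x hx
    obtain ⟨hxT, hxD⟩ := mem_sdiff.1 hx
    by_contra hcon
    push Not at hcon
    have hins : insert x D ∈ T.powerset.filter Ind := by
      rw [mem_filter, mem_powerset]
      refine ⟨insert_subset hxT hDT, ?_⟩
      intro a ha b hb hab
      rw [mem_insert] at ha hb
      rcases ha with rfl | ha
      · rcases hb with rfl | hb
        · exact hab.1 rfl
        · exact hcon b hb hab
      · rcases hb with rfl | hb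
        · exact hcon a ha hab.symm
        · exact hDI a ha b hb hab
    have := hmax _ hins
    rw [card_insert_of_notMem hxD] at this
    omega
  have hsum : (T \ D).card + D.card = T.card := card_sdiff_add_card_eq_card hDT
  by_cases hc : T.card ≤ 2 * D.card
  · refine ⟨D, hc, fun x hx => ?_⟩
    obtain ⟨y, hy⟩ := hT x (hDT hx)
    exact ⟨y, fun hyD => hDI x hx y hyD hy, hy⟩
  · refine ⟨T \ D, by omega, fun x hx => ?_⟩
    obtain ⟨y, hyD, hy⟩ := hout x hx
    exact ⟨y, fun h => (mem_sdiff.1 h).2 hyD, hy⟩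

/-- The cards of `T(G)` at `a`, `b`, `c` determine `T(G)`. -/
def TC {V : Type} (G : SimpleGraph V) (a b c : V) : Prop :=
  a ≠ b ∧ a ≠ c ∧ b ≠ c ∧
    ∀ (W : Type) [Fintype W] (H : SimpleGraph W) (a' b' c' : W), a' ≠ b' → a' ≠ c' → b' ≠ c' →
      Nonempty (TCard G a ≃o TCard H a') → Nonempty (TCard G b ≃o TCard H b') →
      Nonempty (TCard G c ≃o TCard H c') → Nonempty (TLat G ≃o TLat H)

omit [DecidableEq V] in
/-- the criterion for three given cards -/
theorem criterionTC (G : SimpleGraph V) (v1 v2 v3 : V) (h12 : v1 ≠ v2)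
    (h13 : v1 ≠ v3) (h23 : v2 ≠ v3) (R1 : Rn G v1) (R2 : Rn G v2)
    (hs : ∀ s t : V, ¬ Rn G s → ¬ Rn G t →
      (∀ z, Rn G z → z ≠ v1 → z ≠ v2 → (G.Adj z s ↔ G.Adj z t)) →
      ∀ z, Rn G z → (G.Adj z s ↔ G.Adj z t)) : TC G v1 v2 v3 := by
  refine ⟨h12, h13, h23, ?_⟩
  intro W _ H w1 w2 w3 g12 g13 g23 c1 c2 c3
  obtain ⟨π1, e1, a1⟩ := card_ext G H v1 w1 c1
  obtain ⟨π2, e2, a2⟩ := card_ext G H v2 w2 c2
  obtain ⟨π3, e3, a3⟩ := card_ext G H v3 w3 c3
  have f12 : π1 v2 = w2 := three_fix h12 e1 e2 a1 a2 R2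
  have f21 : π2 v1 = w1 := three_fix h12.symm e2 e1 a2 a1 R1
  have f31 : π3 v1 = w1 := three_fix h13.symm e3 e1 a3 a1 R1
  have f32 : π3 v2 = w2 := three_fix h23.symm e3 e2 a3 a2 R2
  have p12 : π1.symm w2 = v2 := (Equiv.symm_apply_eq _).2 f12.symm
  have na := trans_na e1 e2 a1 a2
  rw [p12] at na
  -- agreement on R
  have ag12 : ∀ x, Rn G x → π1 x = π2 x := by
    intro x hx
    by_cases x1 : x = v1
    · rw [x1, e1, f21]
    · by_cases x2 : x = v2
      · rw [x2, f12, e2]
      · have h : π2.symm (π1 x) = x := hx _ na x1 x2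
        exact (Equiv.symm_apply_eq _).1 h
  -- agreement at v1, v2 for π3
  have key : ∀ x, x ≠ v1 → (H.Adj (π1 v1) (π1 x) ↔ G.Adj v1 x) := by
    intro x hx1
    by_cases hxR : Rn G x
    · by_cases hx2 : x = v2
      · rw [hx2, e1, f12, ← f31, ← f32]
        exact a3 _ _ h13 h23
      · rw [ag12 x hxR, ag12 v1 R1]
        exact a2 _ _ h12 hx2
    · have hx2 : x ≠ v2 := fun e => hxR (e ▸ R2)
      set y := π2.symm (π1 x) with hy
      have hπy : π2 y = π1 x := by rw [hy, Equiv.apply_symm_apply]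
      have hy2 : y ≠ v2 := by
        intro e
        rw [e, e2, ← f12] at hπy
        exact hx2 (π1.injective hπy).symm
      have hstep : H.Adj (π1 v1) (π1 x) ↔ G.Adj v1 y := by
        rw [← hπy, ag12 v1 R1]
        exact a2 _ _ h12 hy2
      rw [hstep]
      by_cases hyx : y = x
      · rw [hyx]
      · have hyR : ¬ Rn G y := moved_notRn na hx1 hx2 hyx
        have := hs y x hyR hxR (fun z hz z1 z2 => by
          have h := na z x z1 z2 hx1 hx2
          have hz' : π2.symm (π1 z) = z := by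
            rw [ag12 z hz, Equiv.symm_apply_apply]
          have h' : G.Adj (π2.symm (π1 z)) (π2.symm (π1 x)) ↔ G.Adj z x := h
          rw [hz'] at h'
          exact h') v1 R1
        exact this
  apply whole_iso G H π1
  intro x y
  by_cases hx : x = v1
  · by_cases hy : y = v1
    · rw [hx, hy]; simp
    · rw [hx]; exact key y hy
  · by_cases hy : y = v1
    · rw [hy, H.adj_comm, G.adj_comm]; exact key x hx
    · exact a1 x y hx hy

open Classical in
/-- the triples of vertices whose cards do not determine `T(G)` -/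
noncomputable def BT (G : SimpleGraph V) : Finset (V × V × V) :=
  univ.filter (fun t => ¬ TC G t.1 t.2.1 t.2.2)

open Classical in
/-- labels over the set of `z` with `p z` -/
noncomputable def Lab (G : SimpleGraph V) (p : V → Prop) : Finset V :=
  univ.filter (fun v => (Rn G v ∧ p v) ∧ ∃ s t : V, ¬ Rn G s ∧ ¬ Rn G t ∧
      ∀ z, Rn G z → p z → ((G.Adj z s ↔ G.Adj z t) ↔ z ≠ v))

theorem mem_Lab (G : SimpleGraph V) (p : V → Prop) (v : V) : v ∈ Lab G p ↔
    (Rn G v ∧ p v) ∧ ∃ s t : V, ¬ Rn G s ∧ ¬ Rn G t ∧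
      ∀ z, Rn G z → p z → ((G.Adj z s ↔ G.Adj z t) ↔ z ≠ v) := by
  classical
  unfold Lab
  rw [mem_filter]
  exact ⟨fun h => h.2, fun h => ⟨mem_univ _, h⟩⟩

open Classical in
/-- the vertices moved by near-automorphisms -/
noncomputable def Mv (G : SimpleGraph V) : Finset V := univ.filter (fun x => ¬ Rn G x)

theorem mem_Mv (G : SimpleGraph V) (v : V) : v ∈ Mv G ↔ ¬ Rn G v := by
  classical
  unfold Mv
  rw [mem_filter]
  exact ⟨fun h => h.2, fun h => ⟨mem_univ _, h⟩⟩

theorem card_Lab (G : SimpleGraph V) (p : V → Prop) : (Lab G p).card ≤ (Mv G).card := by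
  have hq : ∀ v, ∃ q : V × V, v ∈ Lab G p → (q.1 ∈ Mv G ∧ q.2 ∈ Mv G ∧
      ∀ z ∈ Lab G p, ((G.Adj z q.1 ↔ G.Adj z q.2) ↔ z ≠ v)) := by
    intro v
    by_cases hv : v ∈ Lab G p
    · obtain ⟨-, s, t, hs, ht, h⟩ := (mem_Lab G p v).1 hv
      refine ⟨(s, t), fun _ => ⟨(mem_Mv G s).2 hs, (mem_Mv G t).2 ht, fun z hz => ?_⟩⟩
      obtain ⟨⟨h1, h2⟩, -⟩ := (mem_Lab G p z).1 hz
      exact h z h1 h2
    · exact ⟨(v, v), fun h => absurd h hv⟩
  choose q hq using hq
  exact label_rank G (Lab G p) (Mv G) q (fun v hv => hq v hv)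

/-- a good triple -/
theorem good_triple (G : SimpleGraph V) (v1 v2 v3 : V) (n12 : v1 ≠ v2) (n13 : v1 ≠ v3)
    (n23 : v2 ≠ v3) (c1 : v1 ∉ Mv G) (c2 : v2 ∉ Mv G) (l0 : v1 ∉ Lab G (fun _ => True))
    (l1 : v2 ∉ Lab G (fun z => z ≠ v1)) : TC G v1 v2 v3 := by
  have R1 : Rn G v1 := by
    by_contra h
    exact c1 ((mem_Mv G v1).2 h)
  have R2 : Rn G v2 := by
    by_contra h
    exact c2 ((mem_Mv G v2).2 h)
  apply criterionTC G v1 v2 v3 n12 n13 n23 R1 R2
  intro s t hs ht hst
  by_cases hd2 : G.Adj v2 s ↔ G.Adj v2 t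
  · by_cases hd1 : G.Adj v1 s ↔ G.Adj v1 t
    · intro z hz
      by_cases e1 : z = v1
      · rw [e1]; exact hd1
      · by_cases e2 : z = v2
        · rw [e2]; exact hd2
        · exact hst z hz e1 e2
    · exfalso
      apply l0
      rw [mem_Lab]
      refine ⟨⟨R1, trivial⟩, s, t, hs, ht, fun z hz _ => ?_⟩
      by_cases e1 : z = v1
      · rw [e1]; exact ⟨fun h => absurd h hd1, fun h => absurd rfl h⟩
      · refine ⟨fun _ => e1, fun _ => ?_⟩
        by_cases e2 : z = v2
        · rw [e2]; exact hd2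
        · exact hst z hz e1 e2
  · exfalso
    apply l1
    rw [mem_Lab]
    refine ⟨⟨R2, n12.symm⟩, s, t, hs, ht, fun z hz e1 => ?_⟩
    by_cases e2 : z = v2
    · rw [e2]; exact ⟨fun h => absurd h hd2, fun h => absurd rfl h⟩
    · exact ⟨fun _ => e2, fun _ => hst z hz e1 e2⟩

/-- few triples fail if few vertices are moved -/
theorem bad_triples (G : SimpleGraph V) :
    (BT G).card ≤ (5 * (Mv G).card + 3) * Fintype.card V ^ 2 := by
  classical
  set n := Fintype.card V with hn
  let A1 : Finset (V × V × V) := Mv G ×ˢ (univ ×ˢ univ)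
  let A2 : Finset (V × V × V) := univ ×ˢ (Mv G ×ˢ univ)
  let A4 : Finset (V × V × V) := Lab G (fun _ => True) ×ˢ (univ ×ˢ univ)
  let A5 : Finset (V × V × V) :=
    univ.biUnion (fun v1 => ({v1} : Finset V) ×ˢ (Lab G (fun z => z ≠ v1) ×ˢ univ))
  let A6 : Finset (V × V × V) := (univ : Finset (V × V)).image (fun p => (p.1, p.1, p.2))
  let A7 : Finset (V × V × V) := (univ : Finset (V × V)).image (fun p => (p.1, p.2, p.1))
  let A8 : Finset (V × V × V) := (univ : Finset (V × V)).image (fun p => (p.1, p.2, p.2))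
  have hsub : BT G ⊆ (A1 ∪ A2 ∪ A4 ∪ A5) ∪ (A6 ∪ A7 ∪ A8) := by
    rintro ⟨v1, v2, v3⟩ ht
    have hbad : ¬ TC G v1 v2 v3 := (mem_filter.1 ht).2
    by_contra hcon
    rw [mem_union, mem_union, mem_union, mem_union, mem_union, mem_union] at hcon
    push Not at hcon
    obtain ⟨⟨⟨⟨c1, c2⟩, c4⟩, c5⟩, ⟨c6, c7⟩, c8⟩ := hcon
    apply hbad
    apply good_triple G v1 v2 v3
    · exact fun e => c6 (mem_image.2 ⟨(v1, v3), mem_univ _, by rw [e]⟩)
    · exact fun e => c7 (mem_image.2 ⟨(v1, v2), mem_univ _, by rw [e]⟩)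
    · exact fun e => c8 (mem_image.2 ⟨(v1, v2), mem_univ _, by rw [e]⟩)
    · exact fun h => c1 (mem_product.2 ⟨h, mem_univ _⟩)
    · exact fun h => c2 (mem_product.2 ⟨mem_univ _, mem_product.2 ⟨h, mem_univ _⟩⟩)
    · exact fun h => c4 (mem_product.2 ⟨h, mem_univ _⟩)
    · exact fun h => c5 (mem_biUnion.2 ⟨v1, mem_univ _,
        mem_product.2 ⟨mem_singleton_self _, mem_product.2 ⟨h, mem_univ _⟩⟩⟩)
  have b1 : A1.card = (Mv G).card * (n * n) := by
    rw [card_product, card_product, card_univ]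
  have b2 : A2.card = n * ((Mv G).card * n) := by
    rw [card_product, card_product, card_univ]
  have b4 : A4.card ≤ (Mv G).card * (n * n) := by
    rw [card_product, card_product, card_univ]
    exact Nat.mul_le_mul_right _ (card_Lab _ _)
  have b5 : A5.card ≤ n * ((Mv G).card * n) := by
    have : A5.card ≤ (univ : Finset V).card * ((Mv G).card * n) := by
      apply card_biUnion_le_card_mul
      intro v1 _
      rw [card_product, card_product, card_singleton, one_mul, card_univ]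
      exact Nat.mul_le_mul_right _ (card_Lab _ _)
    rwa [card_univ] at this
  have b6 : A6.card ≤ n * n := card_image_le.trans (le_of_eq (by rw [card_univ, Fintype.card_prod]))
  have b7 : A7.card ≤ n * n := card_image_le.trans (le_of_eq (by rw [card_univ, Fintype.card_prod]))
  have b8 : A8.card ≤ n * n := card_image_le.trans (le_of_eq (by rw [card_univ, Fintype.card_prod]))
  have u1 := card_union_le (A1 ∪ A2 ∪ A4 ∪ A5) (A6 ∪ A7 ∪ A8)
  have u2 := card_union_le (A1 ∪ A2 ∪ A4) A5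
  have u3 := card_union_le (A1 ∪ A2) A4
  have u5 := card_union_le A1 A2
  have u6 := card_union_le (A6 ∪ A7) A8
  have u7 := card_union_le A6 A7
  have hfin := card_le_card hsub
  have e1 : (5 * (Mv G).card + 3) * n ^ 2 = (Mv G).card * (n * n) + n * ((Mv G).card * n) +
      (Mv G).card * (n * n) + n * ((Mv G).card * n) + (Mv G).card * (n * n) +
      (n * n + n * n + n * n) := by ring
  rw [e1]
  clear_value A1 A2 A4 A5 A6 A7 A8
  omega

/-- the two alternatives -/
def Dich (G : SimpleGraph V) (k : ℕ) : Prop :=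
  (∃ φ : NAut V, IsNA G φ ∧ 3 * k ≤ (mv φ).card) ∨
    (∃ X : Finset V, X.card = k ∧ ∀ x ∈ X, ∃ y, y ∉ X ∧ NT G (3 * k + 1) x y)

theorem dichotomy (G : SimpleGraph V) (η : ℝ) (k : ℕ)
    (hG : η * (Fintype.card V : ℝ) ^ 3 < (BT G).card)
    (hk : 10 * (k : ℝ) + 3 ≤ η * Fintype.card V) : Dich G k := by
  classical
  by_cases hfirst : ∃ φ : NAut V, IsNA G φ ∧ 3 * k ≤ (mv φ).card
  · exact Or.inl hfirst
  right
  push Not at hfirst
  set M : Finset V := Mv G with hMdef
  have hM : ∀ x ∈ M, ∃ y, NT G (3 * k + 1) x y := by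
    intro x hx
    have hx' := (mem_Mv G x).1 hx
    unfold Rn at hx'
    push Not at hx'
    obtain ⟨φ, hφ, h1, h2, h3⟩ := hx'
    have := hfirst φ hφ
    exact ⟨φ.1 x, moved_NT hφ h1 h2 h3 _ (by omega)⟩
  obtain ⟨X, hX1, hX2⟩ := exists_X G (3 * k + 1) M hM
  have hb := bad_triples G
  have hbR : ((BT G).card : ℝ) ≤ (5 * (M.card : ℝ) + 3) * (Fintype.card V : ℝ) ^ 2 := by
    exact_mod_cast hb
  have hkX : k ≤ X.card := by
    by_contra hlt
    push Not at hlt
    have h1 : M.card ≤ 2 * k := by omega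
    have h1R : (M.card : ℝ) ≤ 2 * k := by exact_mod_cast h1
    have h2 : (5 * (M.card : ℝ) + 3) * (Fintype.card V : ℝ) ^ 2 ≤
        (η * Fintype.card V) * (Fintype.card V : ℝ) ^ 2 :=
      mul_le_mul_of_nonneg_right (by linarith) (by positivity)
    have h3 : (η * Fintype.card V) * (Fintype.card V : ℝ) ^ 2 = η * (Fintype.card V : ℝ) ^ 3 := by
      ring
    linarith
  obtain ⟨Y, hYX, hYc⟩ := exists_subset_card_eq hkX
  refine ⟨Y, hYc, fun x hx => ?_⟩
  obtain ⟨y, hy1, hy2⟩ := hX2 x (hYX hx)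
  exact ⟨y, fun h => hy1 (hYX h), hy2⟩

/-- an independent part of the support of a permutation -/
theorem exists_indep (φ : NAut V) (k : ℕ) (hk : 3 * k ≤ (mv φ).card) :
    ∃ X : Finset V, X.card = k ∧ X ⊆ mv φ ∧ ∀ x ∈ X, φ.1 x ∉ X := by
  classical
  let Ind : Finset V → Prop := fun D => ∀ x ∈ D, φ.1 x ∉ D
  have h0 : (∅ : Finset V) ∈ (mv φ).powerset.filter Ind :=
    mem_filter.2 ⟨empty_mem_powerset _, by intro x hx; simp at hx⟩
  obtain ⟨D, hD, hmax⟩ := exists_max_image ((mv φ).powerset.filter Ind) card ⟨_, h0⟩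
  obtain ⟨hDT, hDI⟩ := mem_filter.1 hD
  rw [mem_powerset] at hDT
  have hsub : mv φ ⊆ (D ∪ D.image φ.1) ∪ D.image φ.1.symm := by
    intro x hx
    by_contra hcon
    rw [mem_union, mem_union] at hcon
    push Not at hcon
    obtain ⟨⟨c1, c2⟩, c3⟩ := hcon
    have hins : insert x D ∈ (mv φ).powerset.filter Ind := by
      rw [mem_filter, mem_powerset]
      refine ⟨insert_subset hx hDT, ?_⟩
      intro a ha hmem
      rw [mem_insert] at ha hmem
      rcases ha with rfl | ha
      · rcases hmem with e | e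
        · exact (mem_filter.1 hx).2.2.2 e
        · exact c3 (mem_image.2 ⟨φ.1 a, e, by simp⟩)
      · rcases hmem with e | e
        · exact c2 (mem_image.2 ⟨a, ha, e⟩)
        · exact hDI a ha e
    have := hmax _ hins
    rw [card_insert_of_notMem c1] at this
    omega
  have hcard : (mv φ).card ≤ 3 * D.card := by
    refine (card_le_card hsub).trans ((card_union_le _ _).trans ?_)
    have h1 := card_union_le D (D.image φ.1)
    have h2 : (D.image φ.1).card ≤ D.card := card_image_le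
    have h3 : (D.image φ.1.symm).card ≤ D.card := card_image_le
    omega
  obtain ⟨Y, hYD, hYc⟩ := exists_subset_card_eq (show k ≤ D.card by omega)
  exact ⟨Y, hYc, hYD.trans hDT, fun x hx h => hDI x (hYD hx) (hYD h)⟩

end

end Pool.Agent.TH953.RC
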