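import Pool.Agent.TH953.RC.Speed
import Pool.Agent.TH953.RC.Det
import Pool.Agent.H234RC.Main

set_option autoImplicit false

/-! Counting the members of a hereditary class that are not determined by three cards. -/

namespace Pool.Agent.TH953.RC

open Finset Pool.Agent.H234RC

section

variable {n k : ℕ}

/-- embedding onto the complement of `X` -/
noncomputable def cemb (X : Finset (Fin n)) (hX : X.card = k) : Fin (n - k) ↪ Fin n :=
  ((Xᶜ).orderEmbOfFin (by rw [card_compl, Fintype.card_fin, hX])).toEmbedding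

theorem mem_cemb (X : Finset (Fin n)) (hX : X.card = k) {x : Fin n} (hx : x ∉ X) :
    ∃ a, cemb X hX a = x := by
  have : x ∈ Set.range ((Xᶜ).orderEmbOfFin (show (Xᶜ).card = n - k by
      rw [card_compl, Fintype.card_fin, hX])) := by
    rw [range_orderEmbOfFin]
    exact mem_coe.2 (mem_compl.2 hx)
  obtain ⟨a, ha⟩ := this
  exact ⟨a, ha⟩

theorem agree_out (X : Finset (Fin n)) (hX : X.card = k) {G G' : SimpleGraph (Fin n)}
    (h : G.comap (cemb X hX) = G'.comap (cemb X hX)) {x y : Fin n} (hx : x ∉ X) (hy : y ∉ X) :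
    G.Adj x y ↔ G'.Adj x y := by
  obtain ⟨a, rfl⟩ := mem_cemb X hX hx
  obtain ⟨b, rfl⟩ := mem_cemb X hX hy
  have : (G.comap (cemb X hX)).Adj a b ↔ (G'.comap (cemb X hX)).Adj a b := by rw [h]
  exact this

open Classical in
theorem ncard_eq (P : ∀ n : ℕ, Set (SimpleGraph (Fin n))) (m : ℕ) :
    (P m).ncard = (univ.filter (fun G : SimpleGraph (Fin m) => G ∈ P m)).card := by
  rw [← Set.ncard_coe_finset]
  congr 1
  ext G; simp

open Classical in
theorem count_na (P : ∀ n : ℕ, Set (SimpleGraph (Fin n))) (hP : Hered P) (φ : NAut (Fin n))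
    (X : Finset (Fin n)) (hX : X.card = k) (hXm : X ⊆ mv φ) (hXi : ∀ x ∈ X, φ.1 x ∉ X) :
    (univ.filter (fun G : SimpleGraph (Fin n) => G ∈ P n ∧ IsNA G φ)).card ≤
      (P (n - k)).ncard * 2 ^ (k * (k + 2)) := by
  let Z : Finset (Fin n) := {φ.2.1, φ.2.2} ∪ X.image φ.1.symm
  let E0 : Finset (Sym2 (Fin n)) := (X ×ˢ Z).image (fun p => s(p.1, p.2))
  have hZ : Z.card ≤ k + 2 := by
    have h1 := card_union_le ({φ.2.1, φ.2.2} : Finset (Fin n)) (X.image φ.1.symm)
    have h2 : ({φ.2.1, φ.2.2} : Finset (Fin n)).card ≤ 2 := card_le_two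
    have h3 : (X.image φ.1.symm).card ≤ X.card := card_image_le
    show (({φ.2.1, φ.2.2} : Finset (Fin n)) ∪ X.image φ.1.symm).card ≤ k + 2
    omega
  have hE0 : E0.card ≤ k * (k + 2) := by
    refine card_image_le.trans ?_
    rw [card_product, hX]
    exact Nat.mul_le_mul_left _ hZ
  let F : SimpleGraph (Fin n) → SimpleGraph (Fin (n - k)) × Finset (Sym2 (Fin n)) := fun G =>
    (G.comap (cemb X hX), E0.filter (fun e => e ∈ G.edgeSet))
  have hmaps : ∀ G ∈ univ.filter (fun G : SimpleGraph (Fin n) => G ∈ P n ∧ IsNA G φ),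
      F G ∈ (univ.filter (fun G : SimpleGraph (Fin (n - k)) => G ∈ P (n - k))) ×ˢ E0.powerset := by
    intro G hG
    rw [mem_product]
    exact ⟨mem_filter.2 ⟨mem_univ _, hP _ _ _ _ (mem_filter.1 hG).2.1⟩,
      mem_powerset.2 (filter_subset _ _)⟩
  have hinj : Set.InjOn F (univ.filter (fun G : SimpleGraph (Fin n) => G ∈ P n ∧ IsNA G φ) :
      Set (SimpleGraph (Fin n))) := by
    intro G hG G' hG' hF
    have hna := (mem_filter.1 (mem_coe.1 hG)).2.2
    have hna' := (mem_filter.1 (mem_coe.1 hG')).2.2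
    have hF1 : G.comap (cemb X hX) = G'.comap (cemb X hX) := congrArg Prod.fst hF
    have hF2 : E0.filter (fun e => e ∈ G.edgeSet) = E0.filter (fun e => e ∈ G'.edgeSet) :=
      congrArg Prod.snd hF
    have hin : ∀ x ∈ X, ∀ y, G.Adj x y ↔ G'.Adj x y := by
      intro x hx y
      by_cases hy : y ∈ Z
      · have hmem : s(x, y) ∈ E0 := mem_image.2 ⟨(x, y), mem_product.2 ⟨hx, hy⟩, rfl⟩
        have := Finset.ext_iff.1 hF2 s(x, y)
        rw [mem_filter, mem_filter] at this
        simpa [hmem] using this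
      · have hy1 : y ≠ φ.2.1 := fun e => hy (mem_union_left _ (by rw [e]; exact mem_insert_self _ _))
        have hy2 : y ≠ φ.2.2 := fun e => hy (mem_union_left _ (by
          rw [e]; exact mem_insert_of_mem (mem_singleton_self _)))
        have hy3 : φ.1 y ∉ X := fun h => hy (mem_union_right _
          (mem_image.2 ⟨φ.1 y, h, by simp⟩))
        obtain ⟨-, hx1, hx2, hx3⟩ := mem_filter.1 (hXm hx)
        have a1 := hna x y hx1 hx2 hy1 hy2
        have a2 := hna' x y hx1 hx2 hy1 hy2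
        rw [← a1, ← a2]
        exact agree_out X hX hF1 (hXi x hx) hy3
    ext x y
    by_cases hx : x ∈ X
    · exact hin x hx y
    · by_cases hy : y ∈ X
      · rw [G.adj_comm, G'.adj_comm]
        exact hin y hy x
      · exact agree_out X hX hF1 hx hy
  have := card_le_card_of_injOn F hmaps hinj
  refine this.trans ?_
  rw [card_product, card_powerset, ← ncard_eq P (n - k)]
  exact Nat.mul_le_mul_left _ (Nat.pow_le_pow_right (by norm_num) hE0)

theorem xor_aux (A B A' B' D : Prop) (a1 : (¬ (A ↔ B)) ↔ D) (a2 : (¬ (A' ↔ B')) ↔ D)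
    (a3 : B ↔ B') : A ↔ A' := by
  by_cases h1 : A <;> by_cases h2 : B <;> by_cases h3 : A' <;> by_cases h4 : B' <;>
    by_cases h5 : D <;> simp_all

/-- compatibility with a system of near twins -/
def Tw (G : SimpleGraph (Fin n)) (xs ys : Fin k → Fin n) (D : Fin k → Finset (Fin n)) : Prop :=
  ∀ j z, (¬ (G.Adj (xs j) z ↔ G.Adj (ys j) z)) ↔ z ∈ D j

open Classical in
theorem count_tw (P : ∀ n : ℕ, Set (SimpleGraph (Fin n))) (hP : Hered P)
    (xs ys : Fin k → Fin n) (hinj : Function.Injective xs) (hys : ∀ j i, ys j ≠ xs i)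
    (D : Fin k → Finset (Fin n)) :
    (univ.filter (fun G : SimpleGraph (Fin n) => G ∈ P n ∧ Tw G xs ys D)).card ≤
      (P (n - k)).ncard := by
  let X : Finset (Fin n) := univ.image xs
  have hX : X.card = k := by
    rw [card_image_of_injective _ hinj, card_univ, Fintype.card_fin]
  have hyX : ∀ j, ys j ∉ X := by
    intro j h
    obtain ⟨i, _, hi⟩ := mem_image.1 h
    exact hys j i hi.symm
  let F : SimpleGraph (Fin n) → SimpleGraph (Fin (n - k)) := fun G => G.comap (cemb X hX)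
  rw [ncard_eq P (n - k)]
  apply card_le_card_of_injOn F
  · intro G hG
    exact mem_coe.2 (mem_filter.2 ⟨mem_univ _, hP _ _ _ _ (mem_filter.1 hG).2.1⟩)
  · intro G hG G' hG' hF
    have hG1 := (mem_filter.1 (mem_coe.1 hG)).2.2
    have hG2 := (mem_filter.1 (mem_coe.1 hG')).2.2
    have hF1 : G.comap (cemb X hX) = G'.comap (cemb X hX) := hF
    have h1 : ∀ x ∈ X, ∀ y, y ∉ X → (G.Adj x y ↔ G'.Adj x y) := by
      intro x hx y hy
      obtain ⟨j, _, rfl⟩ := mem_image.1 hx
      have a1 := hG1 j y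
      have a2 := hG2 j y
      exact xor_aux _ _ _ _ _ a1 a2 (agree_out X hX hF1 (hyX j) hy)
    have h2 : ∀ x ∈ X, ∀ y, (G.Adj x y ↔ G'.Adj x y) := by
      intro x hx y
      by_cases hy : y ∈ X
      · obtain ⟨j, _, rfl⟩ := mem_image.1 hx
        have a1 := hG1 j y
        have a2 := hG2 j y
        have a3 := h1 y hy (ys j) (hyX j)
        rw [G.adj_comm, G'.adj_comm] at a3
        exact xor_aux _ _ _ _ _ a1 a2 a3
      · exact h1 x hx y hy
    ext x y
    by_cases hx : x ∈ X
    · exact h2 x hx y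
    · by_cases hy : y ∈ X
      · rw [G.adj_comm, G'.adj_comm]
        exact h2 y hy x
      · exact agree_out X hX hF1 hx hy

open Classical in
theorem count_bad (P : ∀ n : ℕ, Set (SimpleGraph (Fin n))) (hP : Hered P) :
    (univ.filter (fun G : SimpleGraph (Fin n) => G ∈ P n ∧ Dich G k)).card ≤
      (n.factorial * n ^ 2) * ((P (n - k)).ncard * 2 ^ (k * (k + 2))) +
      (n ^ k * (n ^ k * (univ.filter (fun D : Finset (Fin n) => D.card ≤ 3 * k + 1)).card ^ k)) *
        (P (n - k)).ncard := by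
  let 𝒟 : Finset (Finset (Fin n)) := univ.filter (fun D : Finset (Fin n) => D.card ≤ 3 * k + 1)
  let A : Finset (NAut (Fin n)) := univ.filter (fun φ => 3 * k ≤ (mv φ).card)
  let GA : NAut (Fin n) → Finset (SimpleGraph (Fin n)) := fun φ =>
    univ.filter (fun G : SimpleGraph (Fin n) => G ∈ P n ∧ IsNA G φ)
  let B : Finset ((Fin k → Fin n) × (Fin k → Fin n) × (Fin k → 𝒟)) :=
    univ.filter (fun c => Function.Injective c.1 ∧ ∀ j i, c.2.1 j ≠ c.1 i)
  let GB : (Fin k → Fin n) × (Fin k → Fin n) × (Fin k → 𝒟) → Finset (SimpleGraph (Fin n)) :=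
    fun c => univ.filter (fun G : SimpleGraph (Fin n) =>
      G ∈ P n ∧ Tw G c.1 c.2.1 (fun j => (c.2.2 j : Finset (Fin n))))
  have hsub : (univ.filter (fun G : SimpleGraph (Fin n) => G ∈ P n ∧ Dich G k)) ⊆
      A.biUnion GA ∪ B.biUnion GB := by
    intro G hG
    obtain ⟨hGP, hG3⟩ := (mem_filter.1 hG).2
    rw [mem_union, mem_biUnion, mem_biUnion]
    rcases hG3 with ⟨φ, h1, h2⟩ | ⟨X, hXc, hX⟩
    · left
      exact ⟨φ, mem_filter.2 ⟨mem_univ _, h2⟩, mem_filter.2 ⟨mem_univ _, hGP, h1⟩⟩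
    · right
      let xs : Fin k → Fin n := X.orderEmbOfFin hXc
      have hxs : ∀ j, xs j ∈ X := fun j => orderEmbOfFin_mem X hXc j
      have hy : ∀ j, ∃ y, y ∉ X ∧ NT G (3 * k + 1) (xs j) y := fun j => hX _ (hxs j)
      choose ys hys1 hys2 using hy
      let D : Fin k → 𝒟 := fun j => ⟨univ.filter (fun z => ¬ (G.Adj (xs j) z ↔ G.Adj (ys j) z)),
        mem_filter.2 ⟨mem_univ _, (hys2 j).2⟩⟩
      refine ⟨(xs, ys, D), mem_filter.2 ⟨mem_univ _, (X.orderEmbOfFin hXc).injective, ?_⟩,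
        mem_filter.2 ⟨mem_univ _, hGP, ?_⟩⟩
      · intro j i h
        have h' : ys j = xs i := h
        exact hys1 j (by rw [h']; exact hxs i)
      · intro j z
        show _ ↔ z ∈ univ.filter (fun z => ¬ (G.Adj (xs j) z ↔ G.Adj (ys j) z))
        rw [mem_filter]
        simp
  have hA : ∀ φ ∈ A, (GA φ).card ≤ (P (n - k)).ncard * 2 ^ (k * (k + 2)) := by
    intro φ hφ
    obtain ⟨X, h1, h2, h3⟩ := exists_indep φ k (mem_filter.1 hφ).2
    exact count_na P hP φ X h1 h2 h3
  have hB : ∀ c ∈ B, (GB c).card ≤ (P (n - k)).ncard := by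
    intro c hc
    obtain ⟨h1, h2⟩ := (mem_filter.1 hc).2
    exact count_tw P hP c.1 c.2.1 h1 h2 _
  have hAc : A.card ≤ n.factorial * n ^ 2 := by
    refine (card_le_univ _).trans (le_of_eq ?_)
    rw [card_NAut, Fintype.card_fin]
  have hBc : B.card ≤ n ^ k * (n ^ k * 𝒟.card ^ k) := by
    refine (card_le_univ _).trans (le_of_eq ?_)
    rw [Fintype.card_prod, Fintype.card_prod, Fintype.card_fun, Fintype.card_fun, Fintype.card_fin,
      Fintype.card_fin, Fintype.card_coe]
  calc _ ≤ (A.biUnion GA ∪ B.biUnion GB).card := card_le_card hsub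
    _ ≤ (A.biUnion GA).card + (B.biUnion GB).card := card_union_le _ _
    _ ≤ A.card * ((P (n - k)).ncard * 2 ^ (k * (k + 2))) + B.card * (P (n - k)).ncard := by
        apply Nat.add_le_add
        · exact card_biUnion_le_card_mul _ _ _ hA
        · exact card_biUnion_le_card_mul _ _ _ hB
    _ ≤ _ := by
        apply Nat.add_le_add
        · exact Nat.mul_le_mul_right _ hAc
        · exact Nat.mul_le_mul_right _ hBc

end

end Pool.Agent.TH953.RC
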