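import Pool.Agent.TH953.RC.Asym

set_option autoImplicit false

namespace Pool.Agent.TH953.RC

open Finset Filter Topology Pool.Agent.H234RC

theorem recon_of_TC {V : Type} (G : SimpleGraph V) (a b c : V) (h : TC G a b c) :
    Reconstructible G := by
  intro W _ H hd
  obtain ⟨f, hf⟩ := hd
  exact h.2.2.2 W H (f a) (f b) (f c) (f.injective.ne h.1) (f.injective.ne h.2.1)
    (f.injective.ne h.2.2.1) (hf a) (hf b) (hf c)

/-- if few triples are bad then `T(G)` is reconstructible -/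
theorem bad_imp {n : ℕ} (hn : 1 ≤ n) (G : SimpleGraph (Fin n)) (η : ℝ)
    (h : ¬ (Reconstructible G ∧ ((BT G).card : ℝ) ≤ η * (n : ℝ) ^ 3)) :
    min η (1 / 2) * (n : ℝ) ^ 3 < (BT G).card := by
  classical
  by_contra hcon
  push Not at hcon
  have hn3 : (0 : ℝ) < (n : ℝ) ^ 3 := by
    have : (0 : ℝ) < n := by exact_mod_cast hn
    positivity
  apply h
  have h1 : ((BT G).card : ℝ) ≤ η * (n : ℝ) ^ 3 :=
    hcon.trans (mul_le_mul_of_nonneg_right (min_le_left _ _) hn3.le)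
  have h2 : ((BT G).card : ℝ) ≤ (1 / 2) * (n : ℝ) ^ 3 :=
    hcon.trans (mul_le_mul_of_nonneg_right (min_le_right _ _) hn3.le)
  refine ⟨?_, h1⟩
  have h3 : ((BT G).card : ℝ) < (n : ℝ) ^ 3 := by linarith
  have h4 : (BT G).card < (univ : Finset (Fin n × Fin n × Fin n)).card := by
    rw [card_univ, Fintype.card_prod, Fintype.card_prod, Fintype.card_fin]
    have : (BT G).card < n ^ 3 := by exact_mod_cast h3
    calc (BT G).card < n ^ 3 := this
      _ = n * (n * n) := by ring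
  obtain ⟨t, -, ht⟩ := exists_mem_notMem_of_card_lt_card h4
  have hTC : TC G t.1 t.2.1 t.2.2 := by
    by_contra hno
    exact ht (mem_filter.2 ⟨mem_univ _, hno⟩)
  exact recon_of_TC G _ _ _ hTC

open Classical in
theorem main (c η : ℝ) (hc : 0 < c) (hη : 0 < η) : ∃ c' : ℝ, 0 < c' ∧
    ∀ P : ∀ n : ℕ, Set (SimpleGraph (Fin n)), Hered P →
      (∀ N : ℕ, ∃ n : ℕ, N ≤ n ∧ (2 : ℝ) ^ (c * (n : ℝ) ^ 2) ≤ ((P n).ncard : ℝ)) →
      ∃ n₀ : ℕ, ∀ n : ℕ, n₀ ≤ n →
        ((univ.filter (fun G : SimpleGraph (Fin n) => G ∈ P n ∧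
          ¬ (Reconstructible G ∧ ((BT G).card : ℝ) ≤ η * (n : ℝ) ^ 3))).card : ℝ) ≤
          (2 : ℝ) ^ (-(c' * (n : ℝ) ^ 2)) * ((P n).ncard : ℝ) := by
  have l20 : 0 < Real.log 2 := Real.log_pos (by norm_num)
  have l21 : Real.log 2 ≤ 1 := by
    have := Real.log_two_lt_d9
    linarith
  set η' : ℝ := min η (1 / 2) with hη'
  have hη'0 : 0 < η' := lt_min hη (by norm_num)
  set h1 : ℝ := min (c * Real.log 2) 1 with hh1
  have h10 : 0 < h1 := lt_min (by positivity) one_pos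
  have h11 : h1 ≤ 1 := min_le_right _ _
  have h12 : h1 ≤ c * Real.log 2 := min_le_left _ _
  set lam : ℝ := h1 / 16 with hlam
  have hlam0 : 0 < lam := by positivity
  have hlam1 : lam ≤ 1 := by rw [hlam]; linarith
  set l : ℝ := -Real.log lam with hl
  have hl0 : 0 ≤ l := by
    have := Real.log_nonpos hlam0.le hlam1
    rw [hl]; linarith
  set κ : ℝ := min (h1 / (64 * (l + 1))) (η' / 20) with hκ
  have hκ0 : 0 < κ := lt_min (by positivity) (by positivity)
  have hκa : κ ≤ h1 / (64 * (l + 1)) := min_le_left _ _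
  have hκb : κ ≤ η' / 20 := min_le_right _ _
  have hκ1 : κ ≤ h1 / 64 := by
    refine hκa.trans ?_
    apply div_le_div_of_nonneg_left h10.le (by norm_num)
    linarith
  have hκ2 : 4 * κ * l ≤ h1 / 16 := by
    have e : κ * (64 * (l + 1)) ≤ h1 := by
      rwa [le_div_iff₀ (by positivity)] at hκa
    have : 0 ≤ κ := hκ0.le
    nlinarith
  refine ⟨h1 * κ / 4, by positivity, fun P hP hbig => ?_⟩
  -- nonempty
  have hne : ∀ n, (P n).Nonempty := by
    intro m
    obtain ⟨n, hn, hn2⟩ := hbig m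
    have hpos : (0 : ℝ) < ((P n).ncard : ℝ) := lt_of_lt_of_le (Real.rpow_pos_of_pos (by norm_num) _) hn2
    have hpos' : 0 < (P n).ncard := by exact_mod_cast hpos
    obtain ⟨G, hG⟩ := (Set.ncard_pos (Set.toFinite _)).1 hpos'
    exact ⟨_, hP m n (Fin.castLEEmb hn) G hG⟩
  obtain ⟨h, hlow, hup⟩ := exists_limit P hP hne
  -- `h1 ≤ h`
  have hh : h1 ≤ h := by
    apply le_of_forall_pos_le_add
    intro ε hε
    obtain ⟨n₀, hn₀⟩ := hup ε hε
    obtain ⟨n, hn, hn2⟩ := hbig (max n₀ 2)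
    have hn2' : 2 ≤ n := le_trans (le_max_right _ _) hn
    have hnR : (2 : ℝ) ≤ n := by exact_mod_cast hn2'
    refine le_trans ?_ (hn₀ n (le_trans (le_max_left _ _) hn))
    refine h12.trans ?_
    unfold rs ls
    have hpos : (0 : ℝ) < (2 : ℝ) ^ (c * (n : ℝ) ^ 2) := Real.rpow_pos_of_pos (by norm_num) _
    have hlog := Real.log_le_log hpos hn2
    rw [Real.log_rpow (by norm_num)] at hlog
    rw [le_div_iff₀ (by nlinarith)]
    have hcl : 0 < c * Real.log 2 := by positivity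
    nlinarith
  set ε : ℝ := h1 * κ / 8 with hε
  have hε0 : 0 < ε := by positivity
  obtain ⟨n₁, hn₁⟩ := hup ε hε0
  obtain ⟨n₂, hn₂⟩ := eventually_atTop.1 (ev_nlogn (h1 * κ / 8) (by positivity))
  obtain ⟨n₃, hn₃⟩ := exists_nat_ge (2 / κ)
  obtain ⟨n₄, hn₄⟩ := exists_nat_ge (6 / η')
  refine ⟨max (max (2 * n₁ + 8) n₂) (max (max n₃ n₄) 8), fun n hn => ?_⟩
  have m1 : 2 * n₁ + 8 ≤ n := le_trans (le_trans (le_max_left _ _) (le_max_left _ _)) hn
  have m2 : n₂ ≤ n := le_trans (le_trans (le_max_right _ _) (le_max_left _ _)) hn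
  have m34 : max n₃ n₄ ≤ n := le_trans (le_trans (le_max_left _ _) (le_max_right _ _)) hn
  have m3 : n₃ ≤ n := le_trans (le_max_left _ _) m34
  have m4 : n₄ ≤ n := le_trans (le_max_right _ _) m34
  have hn8 : (8 : ℝ) ≤ n := by exact_mod_cast (show 8 ≤ n by omega)
  have hκn : 2 ≤ κ * n := by
    have : 2 / κ ≤ n := hn₃.trans (by exact_mod_cast m3)
    rw [div_le_iff₀ hκ0] at this
    linarith
  have hηn : 6 ≤ η' * n := by
    have : 6 / η' ≤ n := hn₄.trans (by exact_mod_cast m4)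
    rw [div_le_iff₀ hη'0] at this
    linarith
  set k : ℕ := ⌊κ * n⌋₊ with hk
  have hkup : (k : ℝ) ≤ κ * n := Nat.floor_le (by positivity)
  have hklow : κ * n - 1 < k := by
    have := Nat.lt_floor_add_one (κ * n)
    linarith
  have hk1 : 1 ≤ k := by
    have : (1 : ℝ) < k := by linarith
    exact_mod_cast this.le
  have hkhalf : κ * n / 2 ≤ k := by linarith
  have hk4R : 4 * (k : ℝ) + 2 ≤ n := by
    have : κ ≤ 1 / 64 := by linarith
    nlinarith
  have hk4 : 4 * k + 2 ≤ n := by exact_mod_cast hk4R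
  have hk10 : 10 * (k : ℝ) + 3 ≤ η' * n := by
    have : κ * n ≤ η' / 20 * n := mul_le_mul_of_nonneg_right hκb (by linarith)
    linarith
  have hsub : (univ.filter (fun G : SimpleGraph (Fin n) => G ∈ P n ∧
      ¬ (Reconstructible G ∧ ((BT G).card : ℝ) ≤ η * (n : ℝ) ^ 3))) ⊆
      univ.filter (fun G : SimpleGraph (Fin n) => G ∈ P n ∧ Dich G k) := by
    intro G hG
    obtain ⟨hG1, hG2⟩ := (mem_filter.1 hG).2
    refine mem_filter.2 ⟨mem_univ _, hG1, ?_⟩
    apply dichotomy G η' k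
    · rw [Fintype.card_fin]
      exact bad_imp (by omega) G η hG2
    · rw [Fintype.card_fin]
      exact hk10
  have hsubR : ((univ.filter (fun G : SimpleGraph (Fin n) => G ∈ P n ∧
      ¬ (Reconstructible G ∧ ((BT G).card : ℝ) ≤ η * (n : ℝ) ^ 3))).card : ℝ) ≤
      ((univ.filter (fun G : SimpleGraph (Fin n) => G ∈ P n ∧ Dich G k)).card : ℝ) :=
    Nat.cast_le.2 (card_le_card hsub)
  have hb := bad_bound P hP hne h1 κ lam h10 h11 hlam hκ0 hκ1 hκ2 h ε hh hε0 n k hk1 hk4 hkup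
    (hn₁ (n - k) (by omega)) (hlow n (by omega))
  refine hsubR.trans (hb.trans ?_)
  apply mul_le_mul_of_nonneg_right _ (Nat.cast_nonneg _)
  have hlg := hn₂ n m2
  have e1 : h1 * (κ * n / 2) * n ≤ h1 * k * n := by
    apply mul_le_mul_of_nonneg_right _ (by linarith)
    exact mul_le_mul_of_nonneg_left hkhalf h10.le
  have e2 : (2 : ℝ) ≤ Real.exp 1 := by
    have := Real.add_one_le_exp (1 : ℝ)
    linarith
  have e3 : (2 : ℝ) ^ (-(h1 * κ / 4 * (n : ℝ) ^ 2)) =
      Real.exp (-(h1 * κ / 4 * (n : ℝ) ^ 2) * Real.log 2) := by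
    rw [Real.rpow_def_of_pos (by norm_num)]
    ring_nf
  rw [e3]
  calc 2 * Real.exp (3 * n * Real.log n - h1 * k * n + ε * n ^ 2)
      ≤ Real.exp 1 * Real.exp (3 * n * Real.log n - h1 * k * n + ε * n ^ 2) :=
        mul_le_mul_of_nonneg_right e2 (Real.exp_pos _).le
    _ = Real.exp (1 + (3 * n * Real.log n - h1 * k * n + ε * n ^ 2)) := (Real.exp_add _ _).symm
    _ ≤ _ := by
        apply Real.exp_le_exp.2
        have e4 : h1 * (κ * n / 2) * n = h1 * κ / 2 * n ^ 2 := by ring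
        have e5 : 0 ≤ h1 * κ / 4 * (n : ℝ) ^ 2 := by positivity
        have e6 : h1 * κ / 4 * (n : ℝ) ^ 2 * Real.log 2 ≤ h1 * κ / 4 * (n : ℝ) ^ 2 * 1 :=
          mul_le_mul_of_nonneg_left l21 e5
        rw [hε]
        linarith

end Pool.Agent.TH953.RC
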