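import Mathlib

set_option autoImplicit false

/-! Shearer's lemma for set families (projections to a `k`-fold cover). -/

namespace Pool.Agent.TH953.RC

open Finset

/-- superadditivity of geometric means, in power form -/
theorem gm_superadd {ι : Type} (K : Finset ι) (k : ℕ) (hk : 1 ≤ k) (hK : K.card = k)
    (x y u : ι → ℝ) (hx : ∀ i ∈ K, 0 ≤ x i) (hy : ∀ i ∈ K, 0 ≤ y i)
    (hu : ∀ i ∈ K, x i + y i ≤ u i) (T X Y : ℝ) (hT : 0 ≤ T) (hX : 0 ≤ X) (hY : 0 ≤ Y)
    (h1 : X ^ k ≤ T * ∏ i ∈ K, x i) (h2 : Y ^ k ≤ T * ∏ i ∈ K, y i) :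
    (X + Y) ^ k ≤ T * ∏ i ∈ K, u i := by
  have hkne : k ≠ 0 := by omega
  have hkR : (0 : ℝ) < k := by exact_mod_cast hk
  have hu0 : ∀ i ∈ K, 0 ≤ u i := fun i hi => by linarith [hx i hi, hy i hi, hu i hi]
  by_cases hz : ∃ i ∈ K, u i = 0
  · obtain ⟨i, hi, hui⟩ := hz
    have hxi : x i = 0 := by linarith [hx i hi, hy i hi, hu i hi]
    have hyi : y i = 0 := by linarith [hx i hi, hy i hi, hu i hi]
    rw [prod_eq_zero hi hxi, mul_zero] at h1
    rw [prod_eq_zero hi hyi, mul_zero] at h2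
    have hX0 : X = 0 := by
      by_contra h
      have : 0 < X ^ k := pow_pos (lt_of_le_of_ne hX (Ne.symm h)) k
      linarith
    have hY0 : Y = 0 := by
      by_contra h
      have : 0 < Y ^ k := pow_pos (lt_of_le_of_ne hY (Ne.symm h)) k
      linarith
    rw [hX0, hY0, prod_eq_zero hi hui]
    simp [hkne]
  · push Not at hz
    have hup : ∀ i ∈ K, 0 < u i := fun i hi => lt_of_le_of_ne (hu0 i hi) (Ne.symm (hz i hi))
    set U : ℝ := ∏ i ∈ K, u i with hU
    have hUpos : 0 < U := prod_pos hup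
    -- the k-th root
    have key : ∀ (z : ι → ℝ) (Z : ℝ), (∀ i ∈ K, 0 ≤ z i) → 0 ≤ Z → Z ^ k ≤ T * ∏ i ∈ K, z i →
        Z ≤ (T * U) ^ ((1 : ℝ) / k) * ∑ i ∈ K, (1 / (k : ℝ)) * (z i / u i) := by
      intro z Z hz0 hZ hle
      have hprod : ∏ i ∈ K, z i = U * ∏ i ∈ K, (z i / u i) := by
        rw [hU, ← prod_mul_distrib]
        apply prod_congr rfl
        intro i hi
        rw [mul_div_cancel₀ _ (ne_of_gt (hup i hi))]
      have hG0 : 0 ≤ ∏ i ∈ K, (z i / u i) :=
        prod_nonneg (fun i hi => div_nonneg (hz0 i hi) (hu0 i hi))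
      have hroot : Z ≤ (T * ∏ i ∈ K, z i) ^ ((1 : ℝ) / k) := by
        rw [← Real.pow_rpow_inv_natCast hZ hkne]
        rw [one_div]
        exact Real.rpow_le_rpow (pow_nonneg hZ k) hle (inv_nonneg.2 hkR.le)
      rw [hprod, ← mul_assoc, Real.mul_rpow (mul_nonneg hT hUpos.le) hG0] at hroot
      refine hroot.trans ?_
      apply mul_le_mul_of_nonneg_left _ (Real.rpow_nonneg (mul_nonneg hT hUpos.le) _)
      rw [← Real.finsetProd_rpow K (fun i => z i / u i)
        (fun i hi => div_nonneg (hz0 i hi) (hu0 i hi))]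
      apply Real.geom_mean_le_arith_mean_weighted K (fun _ => 1 / (k : ℝ)) (fun i => z i / u i)
      · intro i _; positivity
      · rw [sum_const, hK, nsmul_eq_mul]
        field_simp
      · intro i hi; exact div_nonneg (hz0 i hi) (hu0 i hi)
    have e1 := key x X hx hX h1
    have e2 := key y Y hy hY h2
    have hsum : ∑ i ∈ K, (1 / (k : ℝ)) * (x i / u i) + ∑ i ∈ K, (1 / (k : ℝ)) * (y i / u i) ≤ 1 := by
      rw [← sum_add_distrib]
      calc ∑ i ∈ K, ((1 / (k : ℝ)) * (x i / u i) + (1 / (k : ℝ)) * (y i / u i))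
          ≤ ∑ i ∈ K, (1 / (k : ℝ)) := by
            apply sum_le_sum
            intro i hi
            rw [← mul_add, ← add_div]
            have : (x i + y i) / u i ≤ 1 := by
              rw [div_le_one (hup i hi)]; exact hu i hi
            calc (1 / (k : ℝ)) * ((x i + y i) / u i) ≤ (1 / (k : ℝ)) * 1 :=
                  mul_le_mul_of_nonneg_left this (by positivity)
              _ = _ := mul_one _
        _ = 1 := by
            rw [sum_const, hK, nsmul_eq_mul]
            field_simp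
    have hR0 : 0 ≤ (T * U) ^ ((1 : ℝ) / k) := Real.rpow_nonneg (mul_nonneg hT hUpos.le) _
    have hfin : X + Y ≤ (T * U) ^ ((1 : ℝ) / k) := by
      calc X + Y ≤ (T * U) ^ ((1 : ℝ) / k) * (∑ i ∈ K, (1 / (k : ℝ)) * (x i / u i) +
            ∑ i ∈ K, (1 / (k : ℝ)) * (y i / u i)) := by rw [mul_add]; linarith
        _ ≤ (T * U) ^ ((1 : ℝ) / k) * 1 := mul_le_mul_of_nonneg_left hsum hR0
        _ = _ := mul_one _
    calc (X + Y) ^ k ≤ ((T * U) ^ ((1 : ℝ) / k)) ^ k :=
          pow_le_pow_left₀ (add_nonneg hX hY) hfin k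
      _ = T * U := by
          rw [one_div]
          exact Real.rpow_inv_natCast_pow (mul_nonneg hT hUpos.le) hkne

/-- Shearer's lemma -/
theorem shearer {α ι : Type} [DecidableEq α] [Fintype ι] [DecidableEq ι] (S : ι → Finset α)
    (k : ℕ) (hk : 1 ≤ k) (s : Finset α) :
    (∀ a ∈ s, (univ.filter (fun i => a ∈ S i)).card = k) →
    ∀ 𝒜 : Finset (Finset α), 𝒜 ⊆ s.powerset →
      ((𝒜.card : ℕ) : ℝ) ^ k ≤ ∏ i, (((𝒜.image (fun A => A ∩ S i)).card : ℕ) : ℝ) := by
  induction s using Finset.induction_on with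
  | empty =>
    intro _ 𝒜 h𝒜
    rw [powerset_empty] at h𝒜
    rcases subset_singleton_iff.1 h𝒜 with h | h
    · subst h
      simp only [card_empty, Nat.cast_zero]
      rw [zero_pow (by omega)]
      exact prod_nonneg (fun _ _ => Nat.cast_nonneg _)
    · subst h
      simp
  | insert a s ha ih =>
    intro hc 𝒜 h𝒜
    have hc' : ∀ b ∈ s, (univ.filter (fun i => b ∈ S i)).card = k :=
      fun b hb => hc b (mem_insert_of_mem hb)
    set 𝒜0 := 𝒜.nonMemberSubfamily a with h0
    set 𝒜1 := 𝒜.memberSubfamily a with h1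
    have hs0 : 𝒜0 ⊆ s.powerset := by
      intro A hA
      rw [h0, mem_nonMemberSubfamily] at hA
      rw [mem_powerset]
      have := mem_powerset.1 (h𝒜 hA.1)
      intro b hb
      rcases mem_insert.1 (this hb) with e | e
      · subst e; exact absurd hb hA.2
      · exact e
    have hs1 : 𝒜1 ⊆ s.powerset := by
      intro A hA
      rw [h1, mem_memberSubfamily] at hA
      rw [mem_powerset]
      have := mem_powerset.1 (h𝒜 hA.1)
      intro b hb
      rcases mem_insert.1 (this (mem_insert_of_mem hb)) with e | e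
      · subst e; exact absurd hb hA.2
      · exact e
    have i0 := ih hc' 𝒜0 hs0
    have i1 := ih hc' 𝒜1 hs1
    set K := univ.filter (fun i => a ∈ S i) with hKdef
    have hK : K.card = k := hc a (mem_insert_self a s)
    let t : Finset (Finset α) → ι → ℝ := fun ℬ i => (((ℬ.image (fun A => A ∩ S i)).card : ℕ) : ℝ)
    have ht0 : ∀ ℬ i, 0 ≤ t ℬ i := fun _ _ => Nat.cast_nonneg _
    have hsplit : ∀ ℬ, ∏ i, t ℬ i = (∏ i ∈ univ.filter (fun i => ¬ a ∈ S i), t ℬ i) *
        ∏ i ∈ K, t ℬ i := by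
      intro ℬ
      rw [mul_comm]
      exact (prod_filter_mul_prod_filter_not univ (fun i => a ∈ S i) (t ℬ)).symm
    -- non-members
    have hle0 : ∀ i ∈ univ.filter (fun i => ¬ a ∈ S i), t 𝒜0 i ≤ t 𝒜 i := by
      intro i _
      have : 𝒜0.image (fun A => A ∩ S i) ⊆ 𝒜.image (fun A => A ∩ S i) := by
        apply image_subset_image
        intro A hA
        rw [h0, mem_nonMemberSubfamily] at hA
        exact hA.1
      exact Nat.cast_le.2 (card_le_card this)
    have hle1 : ∀ i ∈ univ.filter (fun i => ¬ a ∈ S i), t 𝒜1 i ≤ t 𝒜 i := by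
      intro i hi
      have hai : a ∉ S i := (mem_filter.1 hi).2
      have : 𝒜1.image (fun A => A ∩ S i) ⊆ 𝒜.image (fun A => A ∩ S i) := by
        intro B hB
        obtain ⟨A, hA, rfl⟩ := mem_image.1 hB
        rw [h1, mem_memberSubfamily] at hA
        rw [mem_image]
        exact ⟨insert a A, hA.1, insert_inter_of_notMem hai⟩
      exact Nat.cast_le.2 (card_le_card this)
    have hadd : ∀ i ∈ K, t 𝒜0 i + t 𝒜1 i ≤ t 𝒜 i := by
      intro i hi
      have hai : a ∈ S i := (mem_filter.1 hi).2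
      set B := 𝒜.image (fun A => A ∩ S i) with hB
      have e0 : 𝒜0.image (fun A => A ∩ S i) ⊆ B.nonMemberSubfamily a := by
        intro C hC
        obtain ⟨A, hA, rfl⟩ := mem_image.1 hC
        rw [h0, mem_nonMemberSubfamily] at hA
        rw [mem_nonMemberSubfamily]
        exact ⟨mem_image_of_mem _ hA.1, fun h => hA.2 (mem_inter.1 h).1⟩
      have e1 : 𝒜1.image (fun A => A ∩ S i) ⊆ B.memberSubfamily a := by
        intro C hC
        obtain ⟨A, hA, rfl⟩ := mem_image.1 hC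
        rw [h1, mem_memberSubfamily] at hA
        rw [mem_memberSubfamily]
        refine ⟨?_, fun h => hA.2 (mem_inter.1 h).1⟩
        rw [hB, mem_image]
        exact ⟨insert a A, hA.1, insert_inter_of_mem hai⟩
      have e2 := card_memberSubfamily_add_card_nonMemberSubfamily a B
      have e3 := card_le_card e0
      have e4 := card_le_card e1
      have : (𝒜0.image (fun A => A ∩ S i)).card + (𝒜1.image (fun A => A ∩ S i)).card ≤ B.card := by
        omega
      show (((𝒜0.image (fun A => A ∩ S i)).card : ℕ) : ℝ) + (((𝒜1.image (fun A => A ∩ S i)).card : ℕ) : ℝ) ≤ ((B.card : ℕ) : ℝ)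
      exact_mod_cast this
    have hcard : ((𝒜.card : ℕ) : ℝ) = (𝒜0.card : ℝ) + (𝒜1.card : ℝ) := by
      have := card_memberSubfamily_add_card_nonMemberSubfamily a 𝒜
      rw [← this]
      push_cast
      rw [add_comm]
    set T : ℝ := ∏ i ∈ univ.filter (fun i => ¬ a ∈ S i), t 𝒜 i with hT
    have hT0 : 0 ≤ T := prod_nonneg (fun i _ => ht0 _ i)
    have j0 : ((𝒜0.card : ℕ) : ℝ) ^ k ≤ T * ∏ i ∈ K, t 𝒜0 i := by
      refine i0.trans ?_
      show ∏ i, t 𝒜0 i ≤ _
      rw [hsplit 𝒜0]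
      apply mul_le_mul_of_nonneg_right _ (prod_nonneg (fun i _ => ht0 _ i))
      exact prod_le_prod (fun i _ => ht0 _ i) hle0
    have j1 : ((𝒜1.card : ℕ) : ℝ) ^ k ≤ T * ∏ i ∈ K, t 𝒜1 i := by
      refine i1.trans ?_
      show ∏ i, t 𝒜1 i ≤ _
      rw [hsplit 𝒜1]
      apply mul_le_mul_of_nonneg_right _ (prod_nonneg (fun i _ => ht0 _ i))
      exact prod_le_prod (fun i _ => ht0 _ i) hle1
    rw [hcard]
    show _ ≤ ∏ i, t 𝒜 i
    rw [hsplit 𝒜]
    exact gm_superadd K k hk hK (t 𝒜0) (t 𝒜1) (t 𝒜) (fun i _ => ht0 _ i) (fun i _ => ht0 _ i)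
      hadd T _ _ hT0 (Nat.cast_nonneg _) (Nat.cast_nonneg _) j0 j1

end Pool.Agent.TH953.RC
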