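import Pool.Agent.TH953.RC.Shearer

set_option autoImplicit false

/-! The speed of a hereditary class of graphs. -/

namespace Pool.Agent.TH953.RC

open Finset Filter Topology

/-- closed under isomorphism and induced subgraphs -/
def Hered (P : ∀ n : ℕ, Set (SimpleGraph (Fin n))) : Prop :=
  ∀ (m n : ℕ) (f : Fin m ↪ Fin n) (G : SimpleGraph (Fin n)), G ∈ P n → G.comap f ∈ P m

open Classical in
theorem speed_step (P : ∀ n : ℕ, Set (SimpleGraph (Fin n))) (hP : Hered P) (n : ℕ) (hn : 2 ≤ n) :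
    ((P (n + 1)).ncard : ℝ) ^ (n - 1) ≤ ((P n).ncard : ℝ) ^ (n + 1) := by
  let E : SimpleGraph (Fin (n + 1)) → Finset (Sym2 (Fin (n + 1))) :=
    fun G => univ.filter (fun e => e ∈ G.edgeSet)
  let s : Finset (Sym2 (Fin (n + 1))) := univ.filter (fun e => ¬ e.IsDiag)
  let S : Fin (n + 1) → Finset (Sym2 (Fin (n + 1))) := fun i => s.filter (fun e => i ∉ e)
  let Pf : Finset (SimpleGraph (Fin (n + 1))) := univ.filter (fun G => G ∈ P (n + 1))
  let Pg : Finset (SimpleGraph (Fin n)) := univ.filter (fun G => G ∈ P n)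
  have hPf : (P (n + 1)).ncard = Pf.card := by
    rw [← Set.ncard_coe_finset]
    congr 1
    ext G; simp [Pf]
  have hPg : (P n).ncard = Pg.card := by
    rw [← Set.ncard_coe_finset]
    congr 1
    ext G; simp [Pg]
  have hEinj : Function.Injective E := by
    intro G G' h
    ext x y
    have := Finset.ext_iff.1 h s(x, y)
    simpa [E] using this
  let 𝒜 := Pf.image E
  have h𝒜card : 𝒜.card = Pf.card := card_image_of_injective _ hEinj
  have h𝒜 : 𝒜 ⊆ s.powerset := by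
    intro A hA
    obtain ⟨G, _, rfl⟩ := mem_image.1 hA
    rw [mem_powerset]
    intro e he
    have he' := (mem_filter.1 he).2
    exact mem_filter.2 ⟨mem_univ _, G.not_isDiag_of_mem_edgeSet he'⟩
  have hcov : ∀ a ∈ s, (univ.filter (fun i => a ∈ S i)).card = n - 1 := by
    intro a ha
    revert ha
    induction a using Sym2.ind with
    | _ x y =>
    intro ha
    have hxy : x ≠ y := by
      have := (mem_filter.1 ha).2
      simpa using this
    have : (univ.filter (fun i => s(x, y) ∈ S i)) = (univ.erase x).erase y := by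
      ext i
      simp only [S, mem_filter, mem_univ, true_and, ha, Sym2.mem_iff, mem_erase]
      tauto
    rw [this, card_erase_of_mem (mem_erase.2 ⟨hxy.symm, mem_univ _⟩),
      card_erase_of_mem (mem_univ _), card_univ, Fintype.card_fin]
    omega
  have hsh := shearer S (n - 1) (by omega) s hcov 𝒜 h𝒜
  rw [h𝒜card, ← hPf] at hsh
  refine hsh.trans ?_
  have hi : ∀ i : Fin (n + 1), (((𝒜.image (fun A => A ∩ S i)).card : ℕ) : ℝ) ≤ ((P n).ncard : ℝ) := by
    intro i
    rw [hPg]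
    let ψ : SimpleGraph (Fin n) → Finset (Sym2 (Fin (n + 1))) := fun G' =>
      univ.filter (fun e => e ∈ (G'.map (Fin.succAboveEmb i)).edgeSet)
    have hsub : 𝒜.image (fun A => A ∩ S i) ⊆ Pg.image ψ := by
      intro B hB
      obtain ⟨A, hA, rfl⟩ := mem_image.1 hB
      obtain ⟨G, hG, rfl⟩ := mem_image.1 hA
      have hG' : G ∈ P (n + 1) := (mem_filter.1 hG).2
      rw [mem_image]
      refine ⟨G.comap (Fin.succAboveEmb i), mem_filter.2 ⟨mem_univ _, hP _ _ _ _ hG'⟩, ?_⟩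
      ext e
      induction e using Sym2.ind with
      | _ x y =>
      simp only [ψ, E, S, s, mem_filter, mem_univ, true_and, mem_inter, SimpleGraph.mem_edgeSet,
        SimpleGraph.map_adj, SimpleGraph.comap_adj, Sym2.mk_isDiag_iff, Sym2.mem_iff]
      constructor
      · rintro ⟨a, b, hab, rfl, rfl⟩
        refine ⟨hab, hab.ne, ?_⟩
        push Not
        exact ⟨(Fin.succAbove_ne i a).symm, (Fin.succAbove_ne i b).symm⟩
      · rintro ⟨hxy, hne, hi⟩
        push Not at hi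
        obtain ⟨a, ha⟩ := Fin.exists_succAbove_eq hi.1.symm
        obtain ⟨b, hb⟩ := Fin.exists_succAbove_eq hi.2.symm
        refine ⟨a, b, ?_, ha, hb⟩
        show G.Adj (i.succAbove a) (i.succAbove b)
        rw [ha, hb]; exact hxy
    exact Nat.cast_le.2 ((card_le_card hsub).trans card_image_le)
  calc ∏ i, (((𝒜.image (fun A => A ∩ S i)).card : ℕ) : ℝ) ≤ ∏ _i : Fin (n + 1), ((P n).ncard : ℝ) :=
        prod_le_prod (fun _ _ => Nat.cast_nonneg _) (fun i _ => hi i)
    _ = ((P n).ncard : ℝ) ^ (n + 1) := by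
        rw [prod_const, card_univ, Fintype.card_fin]

/-- log-speed -/
noncomputable def ls (P : ∀ n : ℕ, Set (SimpleGraph (Fin n))) (n : ℕ) : ℝ :=
  Real.log ((P n).ncard : ℝ)

/-- normalised log-speed -/
noncomputable def rs (P : ∀ n : ℕ, Set (SimpleGraph (Fin n))) (n : ℕ) : ℝ :=
  ls P n / ((n : ℝ) * ((n : ℝ) - 1))

theorem rs_step (P : ∀ n : ℕ, Set (SimpleGraph (Fin n))) (hP : Hered P)
    (hne : ∀ n, (P n).Nonempty) (n : ℕ) (hn : 2 ≤ n) : rs P (n + 1) ≤ rs P n := by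
  have h := speed_step P hP n hn
  have hpos : ∀ m, (0 : ℝ) < ((P m).ncard : ℝ) := by
    intro m
    have : 0 < (P m).ncard := (Set.ncard_pos (Set.toFinite _)).2 (hne m)
    exact_mod_cast this
  have h2 := Real.log_le_log (pow_pos (hpos (n + 1)) _) h
  rw [Real.log_pow, Real.log_pow] at h2
  have hnR : (2 : ℝ) ≤ n := by exact_mod_cast hn
  have hcast : ((n - 1 : ℕ) : ℝ) = (n : ℝ) - 1 := by
    rw [Nat.cast_sub (by omega)]; simp
  rw [hcast] at h2
  unfold rs
  rw [div_le_div_iff₀ (by push_cast; nlinarith) (by nlinarith)]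
  push_cast at h2 ⊢
  show ls P (n + 1) * (n * (n - 1)) ≤ ls P n * ((n + 1) * (n + 1 - 1))
  have h3 : ((n : ℝ) - 1) * ls P (n + 1) ≤ (n + 1) * ls P n := h2
  have h4 : (n : ℝ) * (((n : ℝ) - 1) * ls P (n + 1)) ≤ n * ((n + 1) * ls P n) :=
    mul_le_mul_of_nonneg_left h3 (by linarith)
  nlinarith [h4]

theorem rs_anti (P : ∀ n : ℕ, Set (SimpleGraph (Fin n))) (hP : Hered P)
    (hne : ∀ n, (P n).Nonempty) (m n : ℕ) (hm : 2 ≤ m) (hmn : m ≤ n) : rs P n ≤ rs P m := by
  induction n, hmn using Nat.le_induction with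
  | base => exact le_refl _
  | succ n hmn ih => exact (rs_step P hP hne n (by omega)).trans ih

theorem ls_nonneg (P : ∀ n : ℕ, Set (SimpleGraph (Fin n))) (hne : ∀ n, (P n).Nonempty) (n : ℕ) :
    0 ≤ ls P n := by
  apply Real.log_nonneg
  have : 1 ≤ (P n).ncard := (Set.ncard_pos (Set.toFinite _)).2 (hne n)
  exact_mod_cast this

/-- the limit of the normalised log-speed -/
theorem exists_limit (P : ∀ n : ℕ, Set (SimpleGraph (Fin n))) (hP : Hered P)
    (hne : ∀ n, (P n).Nonempty) :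
    ∃ h : ℝ, (∀ n, 2 ≤ n → h ≤ rs P n) ∧ ∀ ε : ℝ, 0 < ε → ∃ n₀, ∀ n, n₀ ≤ n → rs P n ≤ h + ε := by
  let S : Set ℝ := {x | ∃ n, 2 ≤ n ∧ x = rs P n}
  have hSne : S.Nonempty := ⟨rs P 2, 2, le_refl _, rfl⟩
  have hbd : BddBelow S := by
    refine ⟨0, ?_⟩
    rintro x ⟨n, hn, rfl⟩
    have hnR : (2 : ℝ) ≤ n := by exact_mod_cast hn
    exact div_nonneg (ls_nonneg P hne n) (by nlinarith)
  refine ⟨sInf S, fun n hn => csInf_le hbd ⟨n, hn, rfl⟩, fun ε hε => ?_⟩
  obtain ⟨x, ⟨n₀, hn₀, rfl⟩, hx⟩ := exists_lt_of_csInf_lt hSne (lt_add_of_pos_right (sInf S) hε)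
  exact ⟨n₀, fun n hn => (rs_anti P hP hne n₀ n hn₀ hn).trans hx.le⟩

end Pool.Agent.TH953.RC
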